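import Pool.Agent.Q240.KS.Stm1
import Pool.Agent.Helper112.Arith

/-!
# Project KS (helper240): powers of the factors as Dirichlet polynomials
-/

set_option autoImplicit false

namespace Pool.Agent.Q211.KS

open Finset Pool.Agent.H376R2.MR Pool.Agent.Q240.KS

theorem w_nonneg (s : ℝ) : 0 ≤ w s := le_max_left _ _

theorem w_le_one (s : ℝ) : w s ≤ 1 := by
  unfold w
  exact max_le (by norm_num) (by linarith [abs_nonneg s])

theorem w_ne {s : ℝ} (h : w s ≠ 0) : |s| < 1 := by
  by_contra hc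
  push Not at hc
  apply h
  unfold w
  exact max_eq_left (by linarith)

theorem ch_mul (k : ℤ) {u v : ℕ} (hu : 1 ≤ u) (hv : 1 ≤ v) :
    ch k (Real.log u) * ch k (Real.log v) = ch k (Real.log ((u * v : ℕ) : ℝ)) := by
  have hu' : (u : ℝ) ≠ 0 := by
    have : u ≠ 0 := by omega
    exact_mod_cast this
  have hv' : (v : ℝ) ≠ 0 := by
    have : v ≠ 0 := by omega
    exact_mod_cast this
  unfold ch
  rw [← Complex.exp_add, Nat.cast_mul, Real.log_mul hu' hv']
  congr 1
  push_cast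
  ring

/-- the support of the factor -/
noncomputable def sp0 (d : ℕ) : Finset ℕ := by
  classical
  exact (sp d).filter (fun n => w (20 * Real.log n - d) ≠ 0)

theorem mem_sp0 {d n : ℕ} (h : n ∈ sp0 d) :
    1 ≤ n ∧ ((d : ℝ) - 1) / 20 ≤ Real.log n ∧ Real.log n ≤ ((d : ℝ) + 1) / 20 := by
  classical
  unfold sp0 sp at h
  rw [Finset.mem_filter, Finset.mem_Icc] at h
  have h1 := abs_lt.1 (w_ne h.2)
  refine ⟨h.1.1, ?_, ?_⟩ <;> linarith [h1.1, h1.2]

theorem PF_eq (z : ℕ) (t : Fin 3) (d : ℕ) (k : ℤ) :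
    PF z t d k = DP (sp0 d) (fun n => ((cf z t d n : ℝ) : ℂ)) k := by
  classical
  unfold PF DP sp0
  rw [Finset.sum_filter]
  refine Finset.sum_congr rfl fun n _ => ?_
  by_cases h : w (20 * Real.log n - d) = 0
  · rw [if_neg (by simpa using h)]
    simp only [cf, h]
    simp
  · rw [if_pos h]

theorem cf_le {z : ℕ} {t : Fin 3} {d n : ℕ} (h : n ∈ sp0 d) : |cf z t d n| ≤ (1 + d) / n := by
  obtain ⟨h1, h2, h3⟩ := mem_sp0 h
  have hn0 : (0 : ℝ) < n := by exact_mod_cast h1
  have hd : (0 : ℝ) ≤ d := Nat.cast_nonneg d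
  have hlog : 0 ≤ Real.log n := Real.log_nonneg (by exact_mod_cast h1)
  have hw0 := w_nonneg (20 * Real.log n - d)
  have hw1 := w_le_one (20 * Real.log n - d)
  have key : |(if t = 0 then (if n ≤ z then ((ArithmeticFunction.moebius n : ℤ) : ℝ) else 0)
    else if t = 1 then 1 else Real.log n)| ≤ 1 + d := by
    split_ifs
    · have h4 : |(ArithmeticFunction.moebius n : ℤ)| ≤ 1 := ArithmeticFunction.abs_moebius_le_one
      have h5 : |((ArithmeticFunction.moebius n : ℤ) : ℝ)| ≤ 1 := by exact_mod_cast h4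
      linarith
    · rw [abs_zero]
      linarith
    · rw [abs_one]
      linarith
    · rw [abs_of_nonneg hlog]
      linarith
  unfold cf
  rw [abs_div, abs_mul, abs_of_nonneg hw0, abs_of_pos hn0]
  apply div_le_div_of_nonneg_right _ hn0.le
  calc _ ≤ (1 + (d : ℝ)) * 1 := mul_le_mul key hw1 hw0 (by linarith)
    _ = _ := mul_one _

/-- product of two Dirichlet polynomials -/
theorem DP_mul (s s' : Finset ℕ) (a b : ℕ → ℂ) (hs : ∀ n ∈ s, 1 ≤ n) (hs' : ∀ n ∈ s', 1 ≤ n) (k : ℤ) :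
    DP s a k * DP s' b k = DP ((s ×ˢ s').image fun p => p.1 * p.2)
      (fun n => ∑ p ∈ (s ×ˢ s').filter (fun p => p.1 * p.2 = n), a p.1 * b p.2) k := by
  classical
  unfold DP
  rw [Finset.sum_mul_sum, ← Finset.sum_product']
  have h1 : ∀ n ∈ (s ×ˢ s').image (fun p => p.1 * p.2),
      (∑ p ∈ (s ×ˢ s').filter (fun p => p.1 * p.2 = n), a p.1 * b p.2) * ch k (Real.log n) =
      ∑ p ∈ (s ×ˢ s').filter (fun p => p.1 * p.2 = n),
        a p.1 * ch k (Real.log p.1) * (b p.2 * ch k (Real.log p.2)) := by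
    intro n _
    rw [Finset.sum_mul]
    refine Finset.sum_congr rfl fun p hp => ?_
    rw [Finset.mem_filter, Finset.mem_product] at hp
    rw [← hp.2, ← ch_mul k (hs _ hp.1.1) (hs' _ hp.1.2)]
    ring
  rw [Finset.sum_congr rfl h1]
  exact (Finset.sum_fiberwise_of_maps_to (fun p hp => Finset.mem_image_of_mem _ hp) _).symm

/-- polynomials are smaller than exponentials -/
theorem one_add_le_exp {ε : ℝ} (hε : 0 < ε) : ∃ C : ℝ, 1 ≤ C ∧ ∀ x : ℝ, 0 ≤ x →
    1 + x ≤ C * Real.exp (ε * x) := by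
  refine ⟨max 1 (1 / ε), le_max_left _ _, fun x hx => ?_⟩
  have h1 := Real.add_one_le_exp (ε * x)
  have h2 : (1 : ℝ) ≤ max 1 (1 / ε) := le_max_left _ _
  have h3 : 1 / ε ≤ max 1 (1 / ε) := le_max_right _ _
  have h4 : x ≤ max 1 (1 / ε) * (ε * x) := by
    calc x = 1 / ε * (ε * x) := by field_simp
      _ ≤ _ := mul_le_mul_of_nonneg_right h3 (by positivity)
  calc 1 + x ≤ max 1 (1 / ε) * 1 + max 1 (1 / ε) * (ε * x) := by linarith
    _ = max 1 (1 / ε) * (ε * x + 1) := by ring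
    _ ≤ _ := mul_le_mul_of_nonneg_left h1 (by linarith)

/-- **powers of the factors** -/
theorem pow_DP (m : ℕ) : ∀ ε : ℝ, 0 < ε → ∃ C : ℝ, 1 ≤ C ∧ ∀ (z : ℕ) (t : Fin 3) (d : ℕ),
    ∃ (s : Finset ℕ) (b : ℕ → ℂ), (∀ k : ℤ, PF z t d k ^ m = DP s b k) ∧
      (∀ n ∈ s, 1 ≤ n ∧ m * (((d : ℝ) - 1) / 20) ≤ Real.log n ∧
        Real.log n ≤ m * (((d : ℝ) + 1) / 20)) ∧
      ∀ n ∈ s, ‖b n‖ ≤ C * Real.exp (ε * d) / n := by
  classical
  induction m with
  | zero =>
    intro ε hε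
    refine ⟨1, le_rfl, fun z t d => ⟨{1}, fun _ => 1, fun k => ?_, fun n hn => ?_, fun n hn => ?_⟩⟩
    · simp [DP, ch]
    · rw [Finset.mem_singleton] at hn
      subst hn
      simp
    · rw [Finset.mem_singleton] at hn
      subst hn
      have : 1 ≤ Real.exp (ε * d) := Real.one_le_exp (by positivity)
      simpa using this
  | succ m ih =>
    intro ε hε
    obtain ⟨C₁, hC₁, h1⟩ := ih (ε / 4) (by positivity)
    obtain ⟨C₂, hC₂, h2⟩ := one_add_le_exp (show 0 < ε / 4 by positivity)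
    obtain ⟨C₃, hC₃, h3⟩ := Pool.Agent.Helper112.divisor_bound (5 * ε / (m + 1)) (by positivity)
    refine ⟨max 1 (C₃ * Real.exp (ε / 4) * C₂ * C₁), le_max_left _ _, fun z t d => ?_⟩
    obtain ⟨s, b, hb1, hb2, hb3⟩ := h1 z t d
    have hs0 : ∀ n ∈ sp0 d, 1 ≤ n := fun n hn => (mem_sp0 hn).1
    have hs : ∀ n ∈ s, 1 ≤ n := fun n hn => (hb2 n hn).1
    refine ⟨(s ×ˢ sp0 d).image (fun p => p.1 * p.2),
      fun n => ∑ p ∈ (s ×ˢ sp0 d).filter (fun p => p.1 * p.2 = n),
        b p.1 * ((cf z t d p.2 : ℝ) : ℂ), fun k => ?_, ?_, ?_⟩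
    · rw [pow_succ, hb1 k, PF_eq]
      exact DP_mul s (sp0 d) b _ hs hs0 k
    · intro n hn
      rw [Finset.mem_image] at hn
      obtain ⟨p, hp, rfl⟩ := hn
      rw [Finset.mem_product] at hp
      obtain ⟨a1, a2, a3⟩ := hb2 _ hp.1
      obtain ⟨c1, c2, c3⟩ := mem_sp0 hp.2
      have e1 : (p.1 : ℝ) ≠ 0 := by
        have : p.1 ≠ 0 := by omega
        exact_mod_cast this
      have e2 : (p.2 : ℝ) ≠ 0 := by
        have : p.2 ≠ 0 := by omega
        exact_mod_cast this
      refine ⟨Nat.mul_pos a1 c1, ?_, ?_⟩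
      · rw [Nat.cast_mul, Real.log_mul e1 e2]
        push_cast
        linarith
      · rw [Nat.cast_mul, Real.log_mul e1 e2]
        push_cast
        linarith
    · intro n hn
      have hn1 : 1 ≤ n ∧ Real.log n ≤ (m + 1) * (((d : ℝ) + 1) / 20) := by
        rw [Finset.mem_image] at hn
        obtain ⟨p, hp, rfl⟩ := hn
        rw [Finset.mem_product] at hp
        obtain ⟨a1, a2, a3⟩ := hb2 _ hp.1
        obtain ⟨c1, c2, c3⟩ := mem_sp0 hp.2
        have e1 : (p.1 : ℝ) ≠ 0 := by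
          have : p.1 ≠ 0 := by omega
          exact_mod_cast this
        have e2 : (p.2 : ℝ) ≠ 0 := by
          have : p.2 ≠ 0 := by omega
          exact_mod_cast this
        refine ⟨Nat.mul_pos a1 c1, ?_⟩
        rw [Nat.cast_mul, Real.log_mul e1 e2]
        linarith
      have hn0 : (0 : ℝ) < n := by exact_mod_cast hn1.1
      have hcard : (((s ×ˢ sp0 d).filter (fun p => p.1 * p.2 = n)).card : ℝ) ≤
          n.divisors.card := by
        have : ((s ×ˢ sp0 d).filter (fun p => p.1 * p.2 = n)).card ≤ n.divisors.card := by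
          refine Finset.card_le_card_of_injOn (fun p => p.1) ?_ ?_
          · intro p hp
            rw [Finset.mem_coe, Finset.mem_filter] at hp
            rw [Finset.mem_coe, Nat.mem_divisors]
            exact ⟨⟨p.2, hp.2.symm⟩, by omega⟩
          · intro p hp q hq hpq
            rw [Finset.mem_coe, Finset.mem_filter, Finset.mem_product] at hp hq
            have hpq' : p.1 = q.1 := hpq
            refine Prod.ext hpq' ?_
            have h5 : p.1 * p.2 = p.1 * q.2 := by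
              rw [hp.2, hpq', hq.2]
            exact Nat.eq_of_mul_eq_mul_left (hs _ hp.1.1) h5
        exact_mod_cast this
      have hdiv : (n.divisors.card : ℝ) ≤ C₃ * (Real.exp (ε / 4) * Real.exp (ε / 4 * d)) := by
        refine (h3 n hn1.1).trans (mul_le_mul_of_nonneg_left ?_ hC₃.le)
        rw [Real.rpow_def_of_pos hn0, ← Real.exp_add]
        apply Real.exp_le_exp.2
        calc Real.log n * (5 * ε / (m + 1)) ≤ (m + 1) * (((d : ℝ) + 1) / 20) * (5 * ε / (m + 1)) :=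
              mul_le_mul_of_nonneg_right hn1.2 (by positivity)
          _ = ε / 4 + ε / 4 * d := by
            field_simp
            ring
      have hterm : ∀ p ∈ (s ×ˢ sp0 d).filter (fun p => p.1 * p.2 = n),
          ‖b p.1 * ((cf z t d p.2 : ℝ) : ℂ)‖ ≤
            C₁ * Real.exp (ε / 4 * d) * (C₂ * Real.exp (ε / 4 * d)) / n := by
        intro p hp
        rw [Finset.mem_filter, Finset.mem_product] at hp
        have e1 : (0 : ℝ) < p.1 := by exact_mod_cast hs _ hp.1.1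
        have e2 : (0 : ℝ) < p.2 := by exact_mod_cast hs0 _ hp.1.2
        rw [norm_mul, Complex.norm_real, Real.norm_eq_abs]
        have h5 := hb3 _ hp.1.1
        have h6 : |cf z t d p.2| ≤ C₂ * Real.exp (ε / 4 * d) / p.2 :=
          (cf_le hp.1.2).trans (div_le_div_of_nonneg_right (h2 d (Nat.cast_nonneg d)) e2.le)
        calc ‖b p.1‖ * |cf z t d p.2| ≤ (C₁ * Real.exp (ε / 4 * d) / p.1) *
              (C₂ * Real.exp (ε / 4 * d) / p.2) := mul_le_mul h5 h6 (abs_nonneg _) (by positivity)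
          _ = C₁ * Real.exp (ε / 4 * d) * (C₂ * Real.exp (ε / 4 * d)) / ((p.1 * p.2 : ℕ) : ℝ) := by
            push_cast
            field_simp
          _ = _ := by rw [hp.2]
      have hexp : Real.exp (ε / 4 * d) * Real.exp (ε / 4 * d) * Real.exp (ε / 4 * d) ≤
          Real.exp (ε * d) := by
        rw [← Real.exp_add, ← Real.exp_add]
        apply Real.exp_le_exp.2
        have : (0 : ℝ) ≤ ε * d := by positivity
        linarith
      calc ‖∑ p ∈ (s ×ˢ sp0 d).filter (fun p => p.1 * p.2 = n),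
            b p.1 * ((cf z t d p.2 : ℝ) : ℂ)‖ ≤
          ∑ p ∈ (s ×ˢ sp0 d).filter (fun p => p.1 * p.2 = n),
            ‖b p.1 * ((cf z t d p.2 : ℝ) : ℂ)‖ := norm_sum_le _ _
        _ ≤ ∑ p ∈ (s ×ˢ sp0 d).filter (fun p => p.1 * p.2 = n),
            C₁ * Real.exp (ε / 4 * d) * (C₂ * Real.exp (ε / 4 * d)) / n := Finset.sum_le_sum hterm
        _ = ((s ×ˢ sp0 d).filter (fun p => p.1 * p.2 = n)).card *
            (C₁ * Real.exp (ε / 4 * d) * (C₂ * Real.exp (ε / 4 * d)) / n) := by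
            rw [Finset.sum_const, nsmul_eq_mul]
        _ ≤ (C₃ * (Real.exp (ε / 4) * Real.exp (ε / 4 * d))) *
            (C₁ * Real.exp (ε / 4 * d) * (C₂ * Real.exp (ε / 4 * d)) / n) :=
            mul_le_mul_of_nonneg_right (hcard.trans hdiv) (by positivity)
        _ = (C₃ * Real.exp (ε / 4) * C₂ * C₁) *
            (Real.exp (ε / 4 * d) * Real.exp (ε / 4 * d) * Real.exp (ε / 4 * d)) / n := by ring
        _ ≤ (C₃ * Real.exp (ε / 4) * C₂ * C₁) * Real.exp (ε * d) / n := by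
            apply div_le_div_of_nonneg_right _ hn0.le
            exact mul_le_mul_of_nonneg_left hexp (by positivity)
        _ ≤ _ := by
            apply div_le_div_of_nonneg_right _ hn0.le
            exact mul_le_mul_of_nonneg_right (le_max_right _ _) (Real.exp_pos _).le

/-- sums of inverses -/
theorem sum_inv_le {s : Finset ℕ} {A : ℝ} (hs : ∀ n ∈ s, 1 ≤ n ∧ Real.log n ≤ A) :
    ∑ n ∈ s, 1 / (n : ℝ) ≤ 1 + max A 0 := by
  set M : ℕ := ⌊Real.exp (max A 0)⌋₊ with hM
  have hM1 : 1 ≤ M := by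
    rw [hM, Nat.one_le_floor_iff]
    exact Real.one_le_exp (le_max_right _ _)
  have hsub : s ⊆ Icc 1 M := by
    intro n hn
    obtain ⟨h1, h2⟩ := hs n hn
    have hn0 : (0 : ℝ) < n := by exact_mod_cast h1
    rw [Finset.mem_Icc]
    refine ⟨h1, Nat.le_floor ?_⟩
    rw [← Real.log_le_iff_le_exp hn0]
    exact h2.trans (le_max_left _ _)
  have h1 : ∑ n ∈ s, 1 / (n : ℝ) ≤ ∑ n ∈ Icc 1 M, 1 / (n : ℝ) :=
    Finset.sum_le_sum_of_subset_of_nonneg hsub fun _ _ _ => by positivity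
  have h2 : ∑ n ∈ Icc 1 M, 1 / (n : ℝ) = ((harmonic M : ℚ) : ℝ) := by
    rw [harmonic_eq_sum_Icc]
    push_cast
    simp only [one_div]
  have h3 := harmonic_le_one_add_log M
  have h4 : Real.log M ≤ max A 0 := by
    rw [Real.log_le_iff_le_exp (by exact_mod_cast hM1)]
    exact Nat.floor_le (Real.exp_pos _).le
  rw [h2] at h1
  linarith

end Pool.Agent.Q211.KS
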